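import Mathlib

/-!
# A bisymmetric operation that is reflexive only on a proper subinterval

We construct a bisymmetric, symmetric, partially strictly increasing operation on `I = [0, ∞)`
which is reflexive on `J = [0, 1]` but at no point outside `J`.

Write `x ∈ [0, ∞)` as `x = m + s` with an integer `m ≥ 0` and `s ∈ (0, 1]` (and `0 = 0 + 0`).
Then `F (m + s, n + t) = m + n + (s + t) / 2`.
-/

open Set

namespace Pool.Agent.Results.MP_a2bf4b_an.PartialReflexivity

/-- `F` is bisymmetric: `F(F(x,y),F(u,v)) = F(F(x,u),F(y,v))` for all `x, y, u, v ∈ I`. -/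
def Bisymmetric {I : Set ℝ} (F : I → I → I) : Prop :=
  ∀ x y u v : I, F (F x y) (F u v) = F (F x u) (F y v)

/-- `F` is symmetric: `F(x,y) = F(y,x)` for all `x, y ∈ I`. -/
def Symm {I : Set ℝ} (F : I → I → I) : Prop :=
  ∀ x y : I, F x y = F y x

/-- `F` is partially strictly increasing: it is strictly increasing in each variable
when the other variable is fixed. -/
def PartiallyStrictlyIncreasing {I : Set ℝ} (F : I → I → I) : Prop :=
  (∀ y : I, StrictMono fun x : I => F x y) ∧ (∀ x : I, StrictMono fun y : I => F x y)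

/-- The integer part used here: `0` on `[0, 1]`, `1` on `(1, 2]`, `2` on `(2, 3]`, ... -/
noncomputable def ip (x : ℝ) : ℕ := ⌈x⌉₊ - 1

theorem ip_zero : ip 0 = 0 := by simp [ip]

theorem ip_of_mem {x : ℝ} {m : ℕ} (h₁ : (m : ℝ) < x) (h₂ : x ≤ m + 1) : ip x = m := by
  have : ⌈x⌉₊ = m + 1 := by
    rw [Nat.ceil_eq_iff (by omega)]
    simpa using And.intro h₁ h₂
  simp [ip, this]

theorem ip_le {x : ℝ} (hx : 0 ≤ x) : (ip x : ℝ) ≤ x := by
  rcases hx.eq_or_lt with rfl | h
  · simp [ip_zero]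
  · have h1 : 1 ≤ ⌈x⌉₊ := Nat.one_le_ceil_iff.2 h
    have h2 := Nat.ceil_lt_add_one hx
    rw [ip, Nat.cast_sub h1]
    push_cast
    linarith

theorem ip_lt {x : ℝ} (hx : 0 < x) : (ip x : ℝ) < x := by
  have h1 : 1 ≤ ⌈x⌉₊ := Nat.one_le_ceil_iff.2 hx
  have h2 := Nat.ceil_lt_add_one hx.le
  rw [ip, Nat.cast_sub h1]
  push_cast
  linarith

theorem le_ip_add_one (x : ℝ) : x ≤ ip x + 1 := by
  have h2 := Nat.le_ceil x
  have h3 : ⌈x⌉₊ ≤ ip x + 1 := by rw [ip]; omega
  have h4 : (⌈x⌉₊ : ℝ) ≤ ip x + 1 := by exact_mod_cast h3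
  linarith

theorem ip_mono {x y : ℝ} (h : x ≤ y) : ip x ≤ ip y :=
  Nat.sub_le_sub_right (Nat.ceil_mono h) 1

/-- The operation on reals. -/
noncomputable def G (x y : ℝ) : ℝ := (x + ip x + (y + ip y)) / 2

theorem ip_G {x y : ℝ} (hx : 0 ≤ x) (hy : 0 ≤ y) : ip (G x y) = ip x + ip y := by
  rcases hx.eq_or_lt with rfl | hx'
  · rcases hy.eq_or_lt with rfl | hy'
    · simp [G, ip_zero]
    · apply ip_of_mem
      · have := ip_lt hy'
        simp only [G, ip_zero]; push_cast; linarith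
      · have := le_ip_add_one y
        simp only [G, ip_zero]; push_cast; linarith
  · have h1 := ip_lt hx'
    have h2 := ip_le hy
    have h3 := le_ip_add_one x
    have h4 := le_ip_add_one y
    apply ip_of_mem
    · simp only [G]; push_cast; linarith
    · simp only [G]; push_cast; linarith

theorem G_nonneg {x y : ℝ} (hx : 0 ≤ x) (hy : 0 ≤ y) : 0 ≤ G x y := by
  unfold G; positivity

theorem G_G {x y u v : ℝ} (hx : 0 ≤ x) (hy : 0 ≤ y) (hu : 0 ≤ u) (hv : 0 ≤ v) :
    G (G x y) (G u v) = (x + y + u + v + 3 * (ip x + ip y + ip u + ip v)) / 4 := by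
  have h1 : G (G x y) (G u v) = (G x y + ip (G x y) + (G u v + ip (G u v))) / 2 := rfl
  rw [h1, ip_G hx hy, ip_G hu hv]
  simp only [G]
  push_cast
  ring

theorem G_strict {x x' : ℝ} (y : ℝ) (h : x < x') : G x y < G x' y := by
  have h1 : (ip x : ℝ) ≤ ip x' := by exact_mod_cast ip_mono h.le
  simp only [G]
  linarith

/-- The operation on `[0, ∞)`. -/
noncomputable def F (x y : Ici (0 : ℝ)) : Ici (0 : ℝ) := ⟨G x y, G_nonneg x.2 y.2⟩

/-- There are a nondegenerate interval `I`, a bisymmetric, symmetric, partially strictly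
increasing operation `F : I² → I` and a proper subinterval `J ⊊ I` with more than one point such
that `F` is reflexive on `J` but `F(x₀,x₀) ≠ x₀` for some `x₀ ∈ I`. -/
theorem result :
    ∃ (I : Set ℝ) (F : I → I → I) (J : Set ℝ),
      I.OrdConnected ∧ I.Nontrivial ∧
      Bisymmetric F ∧ Symm F ∧ PartiallyStrictlyIncreasing F ∧
      J.OrdConnected ∧ J.Nontrivial ∧ J ⊂ I ∧
      (∀ x : I, (x : ℝ) ∈ J → F x x = x) ∧ ∃ x₀ : I, F x₀ x₀ ≠ x₀ := by
  refine ⟨Ici 0, F, Icc 0 1, ordConnected_Ici, ?_, ?_, ?_, ⟨?_, ?_⟩, ordConnected_Icc, ?_, ?_,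
    ?_, ?_⟩
  · exact ⟨0, by simp, 1, by simp, by norm_num⟩
  · intro x y u v
    apply Subtype.ext
    simp only [F]
    rw [G_G x.2 y.2 u.2 v.2, G_G x.2 u.2 y.2 v.2]
    ring
  · intro x y
    apply Subtype.ext
    simp only [F, G]
    ring
  · intro y x x' h
    exact Subtype.mk_lt_mk.2 (G_strict (y : ℝ) (show (x : ℝ) < x' from h))
  · intro x y y' h
    have := G_strict (x : ℝ) (show (y : ℝ) < y' from h)
    refine Subtype.mk_lt_mk.2 ?_
    have e : ∀ a b : ℝ, G a b = G b a := fun a b => by simp only [G]; ring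
    rw [e x y, e x y']
    exact this
  · exact ⟨0, by simp, 1, by simp, by norm_num⟩
  · refine ⟨fun x hx => hx.1, fun h => ?_⟩
    have : (2 : ℝ) ∈ Icc (0 : ℝ) 1 := h (show (2 : ℝ) ∈ Ici (0 : ℝ) by simp)
    exact absurd this.2 (by norm_num)
  · intro x hx
    apply Subtype.ext
    have h0 : ip (x : ℝ) = 0 := by
      rcases hx.1.eq_or_lt with h | h
      · rw [← h]; exact ip_zero
      · exact ip_of_mem (by simpa using h) (by simpa using hx.2)
    simp only [F, G, h0]
    push_cast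
    ring
  · refine ⟨⟨2, by simp⟩, fun h => ?_⟩
    have h1 : G 2 2 = 2 := congrArg Subtype.val h
    have h2 : ip 2 = 1 := ip_of_mem (by norm_num) (by norm_num)
    simp only [G, h2] at h1
    norm_num at h1

end Pool.Agent.Results.MP_a2bf4b_an.PartialReflexivity
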